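import Pool.Agent.H.MP_a2e505_lc.B

set_option autoImplicit false

namespace Pool.Agent.Results.MP_a2e505_lc.Q1No

open Pool.Agent.H.MP_a2e505_lc Pool.Agent.Lib.helper21.ML

theorem result (A B : ℕ → Bool) (hA : Rand A ∧ LeftCE A) (hB : Rand B ∧ LeftCE B)
    (h : TT A B) : TT B A := tt_symm hB.1 hB.2 hA.1 hA.2 h

end Pool.Agent.Results.MP_a2e505_lc.Q1No
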