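import Pool.Agent.H.MP_a2e505_lc.C

set_option autoImplicit false

namespace Pool.Agent.Results.MP_a2e505_lc.Q2Yes

open Pool.Agent.H.MP_a2e505_lc Pool.Agent.Lib.helper21.ML

theorem result : ∃ A B : ℕ → Bool, (Rand A ∧ LeftCE A) ∧ (Rand B ∧ LeftCE B) ∧
    SW A B ∧ ¬ SW B A :=
  let ⟨X, _, h1, h2⟩ := om
  ⟨D X, X, ⟨rand_D h1, leftCE (apx_D h2)⟩, ⟨h1, leftCE h2⟩, sw_D X, not_sw h1⟩

end Pool.Agent.Results.MP_a2e505_lc.Q2Yes
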